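import Pool.Agent.H66.XP.TG
import Pool.Agent.H32.IP.SYX

/-!
# Row SYC of the board `xpm_modules`: the copies say the bit, also if a few are replaced
-/

set_option autoImplicit false

namespace Pool.Agent.H91.XP

open Finset Pool.Agent.H6.NB Pool.Agent.H70.OQ Pool.Agent.H70.EH Pool.Agent.H78.XQ
open Pool.Agent.H66.XP

/-- The average changes little if a few copies are replaced. -/
theorem syc_avg (hPHB : Pool.Agent.H6.NB.T_PHB) (q l : ℕ) (K : Finset (Fin (2 * l) → Bool))
    (B P : (Fin (2 * l) → Bool) → VV q → Bool) :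
    |avg q (ov K B P) - avg q P| ≤ (K.card : ℝ) / 2 ^ (2 * l) := by
  classical
  have hcard : (Fintype.card (Fin (2 * l) → Bool) : ℝ) = 2 ^ (2 * l) := by
    rw [Fintype.card_fun, Fintype.card_bool, Fintype.card_fin]; push_cast; ring
  have hp : ∀ p : VV q → Bool, 0 ≤ phi q p ^ 2 ∧ phi q p ^ 2 ≤ 1 := fun p =>
    ⟨sq_nonneg _, (sq_le_one_iff_abs_le_one _).2 (hPHB q p)⟩
  unfold avg
  rw [hcard, ← sub_div, abs_div, abs_of_pos (by positivity : (0 : ℝ) < 2 ^ (2 * l)),
    ← sum_sub_distrib]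
  refine div_le_div_of_nonneg_right ?_ (by positivity)
  calc |∑ u, (phi q (ov K B P u) ^ 2 - phi q (P u) ^ 2)|
      ≤ ∑ u, |phi q (ov K B P u) ^ 2 - phi q (P u) ^ 2| := abs_sum_le_sum_abs _ _
    _ ≤ ∑ u, (if u ∈ K then (1 : ℝ) else 0) := by
        refine sum_le_sum fun u _ => ?_
        unfold ov
        by_cases h : u ∈ K
        · rw [if_pos h, if_pos h, abs_le]
          have h1 := hp (B u)
          have h2 := hp (P u)
          constructor <;> linarith
        · rw [if_neg h, if_neg h, sub_self, abs_zero]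
    _ = (K.card : ℝ) := by
        rw [sum_ite_mem, univ_inter, sum_const, nsmul_eq_mul, mul_one]

/-- Row SYC. -/
theorem pf_SYC (hSYX : Pool.Agent.H66.IP.T_SYX) (hMUV : Pool.Agent.H70.EH.T_MUV)
    (hPHB : Pool.Agent.H6.NB.T_PHB) : T_SYC := by
  classical
  intro r l q R n hS b K B hK
  have hl : 128000 ≤ l := by
    refine le_trans ?_ hS.l_ge
    have h1 : 20 ^ 3 ≤ r ^ 3 := Nat.pow_le_pow_left hS.r_ge 3
    omega
  have hrl : 2 * r ≤ l := by
    refine le_trans ?_ hS.l_ge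
    have h1 : r ^ 1 ≤ r ^ 3 := Nat.pow_le_pow_right (by have := hS.r_ge; omega) (by norm_num)
    rw [pow_one] at h1
    omega
  have hKl : (K.card : ℝ) / 2 ^ (2 * l) ≤ 1 / 2 ^ l := by
    have h1 : (K.card : ℝ) ≤ 2 ^ l := by
      have h2 : K.card ≤ 2 ^ l := hK.trans (Nat.pow_le_pow_right (by norm_num) hrl)
      exact_mod_cast h2
    have h3 : (2 : ℝ) ^ (2 * l) = 2 ^ l * 2 ^ l := by rw [two_mul, pow_add]
    rw [div_le_div_iff₀ (by positivity) (by positivity), one_mul, h3]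
    exact mul_le_mul_of_nonneg_right h1 (by positivity)
  have hel : (1 : ℝ) / 2 ^ l ≤ eps2 q ^ 2 / 40 := by
    unfold eps2
    have h3 : (1 / (8 * ((q : ℝ) + 3))) ^ 2 / 40 = 1 / (2560 * ((q : ℝ) + 3) ^ 2) := by
      field_simp
      norm_num
    rw [h3]
    refine one_div_le_one_div_of_le (by positivity) ?_
    have h4 := Pool.Agent.H32.IP.syx_pow l (by omega)
    have h6 : q + 3 ≤ 11 * l := by rw [hS.q_eq]; omega
    have h7 : 2560 * (q + 3) ^ 2 ≤ 2 ^ l := by
      calc 2560 * (q + 3) ^ 2 ≤ 2560 * (11 * l) ^ 2 :=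
            Nat.mul_le_mul_left _ (Nat.pow_le_pow_left h6 2)
        _ = 309760 * l ^ 2 := by ring
        _ ≤ (128000 * 128000) * l ^ 2 := Nat.mul_le_mul_right _ (by norm_num)
        _ ≤ (l * l) * l ^ 2 := Nat.mul_le_mul_right _ (Nat.mul_le_mul hl hl)
        _ = l ^ 4 := by ring
        _ ≤ 2 ^ l := h4
    exact_mod_cast h7
  have hk : ∀ P : (Fin (2 * l) → Bool) → VV q → Bool, SayX q l b P → SayC q l b (ov K B P) := by
    intro P hP
    have h1 := abs_le.1 ((syc_avg hPHB q l K B P).trans hKl)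
    refine ⟨fun hb => ?_, fun hb => ?_⟩
    · have h2 := hP.1 hb
      have h3 : (2 : ℝ) / 2 ^ l = 1 / 2 ^ l + 1 / 2 ^ l := by ring
      rw [h3]
      linarith [h1.2]
    · have h2 := hP.2 hb
      linarith [h1.1]
  refine le_trans (sum_le_sum fun P _ => ?_) (hSYX r l q R n hS b)
  refine mul_le_mul_of_nonneg_left ?_ (prod_nonneg fun u _ => (hMUV b q).1 _)
  by_cases h : SayX q l b P
  · rw [if_pos (hk P h), if_pos h]
  · rw [if_neg h]
    split_ifs
    · exact zero_le_one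
    · exact le_rfl

end Pool.Agent.H91.XP
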